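import Pool.Agent.Helper62.PM.St2

/-!
# Project PM: module XA (calculus of derivatives along rotations)
-/

set_option autoImplicit false

open MeasureTheory Metric Set Filter Topology Polynomial
open scoped RealInnerProductSpace ContDiff

namespace Pool.Agent.Helper87.PM

open Pool.Agent.Helper62.PM
open Pool.Agent.Helper62.Mink

variable {n : ℕ}

private noncomputable abbrev vf (a b x : E n) : E n := (inner ℝ a x : ℝ) • b - (inner ℝ b x : ℝ) • a

private lemma Xd_def (a b : E n) (φ : E n → ℝ) (x : E n) : Xd a b φ x = fderiv ℝ φ x (vf a b x) := rfl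

private lemma S1.diff {φ : E n → ℝ} (h : S1 φ) {x : E n} (hx : x ≠ 0) : DifferentiableAt ℝ φ x :=
  ((h.smooth.contDiffAt (isOpen_compl_singleton.mem_nhds hx)).differentiableAt (by simp))

private lemma Xd_zero_pt (a b : E n) (φ : E n → ℝ) : Xd a b φ 0 = 0 := by
  simp [Xd]

private lemma S1_Xd (a b : E n) (φ : E n → ℝ) (h : S1 φ) : S1 (Xd a b φ) := by
  refine ⟨fun c hc x => ?_, ?_⟩
  · rcases hc.eq_or_lt with rfl | hc
    · rw [zero_smul, Xd_zero_pt, zero_mul]
    · have e1 : fderiv ℝ (fun y => φ (c • y)) x = c • fderiv ℝ φ (c • x) := fderiv_comp_smul c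
      have e2 : (fun y => φ (c • y)) = fun y => c • φ y := by
        funext y
        rw [h.hom c hc.le, smul_eq_mul]
      have e3 : fderiv ℝ (fun y => c • φ y) x = c • fderiv ℝ φ x := by
        have := congrFun (fderiv_const_smul_field (𝕜 := ℝ) (f := φ) c) x
        exact this
      rw [e2, e3] at e1
      have e4 : fderiv ℝ φ (c • x) = fderiv ℝ φ x := (smul_right_injective _ hc.ne' e1).symm
      have e5 : vf a b (c • x) = c • vf a b x := by
        simp only [vf, inner_smul_right, smul_sub, mul_smul]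
      rw [Xd_def, Xd_def, e4, e5, map_smul, smul_eq_mul]
  · have h1 : ContDiffOn ℝ ∞ (fderiv ℝ φ) {0}ᶜ :=
      h.smooth.fderiv_of_isOpen isOpen_compl_singleton (by simp)
    refine h1.clm_apply ?_
    apply ContDiff.contDiffOn
    have i1 : ContDiff ℝ ∞ fun x : E n => (inner ℝ a x : ℝ) := contDiff_const.inner ℝ contDiff_id
    have i2 : ContDiff ℝ ∞ fun x : E n => (inner ℝ b x : ℝ) := contDiff_const.inner ℝ contDiff_id
    exact (i1.smul contDiff_const).sub (i2.smul contDiff_const)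

private lemma Xd_congr {a b : E n} {f g : E n → ℝ} {x : E n} (h : f =ᶠ[𝓝 x] g) :
    Xd a b f x = Xd a b g x := by
  rw [Xd_def, Xd_def, h.fderiv_eq]

private lemma S1_Xw (w : List (Fin n × Fin n)) (φ : E n → ℝ) (h : S1 φ) : S1 (Xw w φ) := by
  induction w with
  | nil => exact h
  | cons q w ih => exact S1_Xd _ _ _ ih

private lemma ev_ne {x : E n} (hx : x ≠ 0) : ∀ᶠ y in 𝓝 x, y ≠ 0 :=
  isOpen_compl_singleton.mem_nhds hx

private lemma Xw_add (w : List (Fin n × Fin n)) {φ ψ : E n → ℝ} (hφ : S1 φ) (hψ : S1 ψ) :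
    ∀ x : E n, x ≠ 0 → Xw w (fun z => φ z + ψ z) x = Xw w φ x + Xw w ψ x := by
  induction w with
  | nil => intro x _; rfl
  | cons q w ih =>
    intro x hx
    have h1 : Xw w (fun z => φ z + ψ z) =ᶠ[𝓝 x] fun y => Xw w φ y + Xw w ψ y := by
      filter_upwards [ev_ne hx] with y hy using ih y hy
    show Xd _ _ (Xw w (fun z => φ z + ψ z)) x = Xd _ _ (Xw w φ) x + Xd _ _ (Xw w ψ) x
    rw [Xd_congr h1, Xd_def, Xd_def, Xd_def,
      fderiv_fun_add (S1.diff (S1_Xw w φ hφ) hx) (S1.diff (S1_Xw w ψ hψ) hx)]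
    rfl

private lemma Xw_smul (w : List (Fin n × Fin n)) (c : ℝ) {φ : E n → ℝ} :
    ∀ x : E n, Xw w (fun z => c * φ z) x = c * Xw w φ x := by
  induction w with
  | nil => intro x; rfl
  | cons q w ih =>
    intro x
    have h1 : Xw w (fun z => c * φ z) = fun y => c • Xw w φ y := by
      funext y
      rw [ih y, smul_eq_mul]
    show Xd _ _ (Xw w (fun z => c * φ z)) x = c * Xd _ _ (Xw w φ) x
    have h2 : fderiv ℝ (fun y => c • Xw w φ y) x = c • fderiv ℝ (Xw w φ) x :=
      congrFun (fderiv_const_smul_field (𝕜 := ℝ) (f := Xw w φ) c) x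
    rw [h1, Xd_def, Xd_def, h2]
    rfl

private lemma S1_add {φ ψ : E n → ℝ} (hφ : S1 φ) (hψ : S1 ψ) : S1 (fun z => φ z + ψ z) :=
  ⟨fun c hc x => by rw [hφ.hom c hc, hψ.hom c hc]; ring, hφ.smooth.add hψ.smooth⟩

private lemma S1_smul (c : ℝ) {φ : E n → ℝ} (hφ : S1 φ) : S1 (fun z => c * φ z) :=
  ⟨fun d hd x => by rw [hφ.hom d hd]; ring, contDiffOn_const.mul hφ.smooth⟩

private lemma S1_zero : S1 (fun _ : E n => (0 : ℝ)) :=
  ⟨fun c _ x => by simp, contDiffOn_const⟩

private lemma Xw_zero (w : List (Fin n × Fin n)) (x : E n) : Xw w (fun _ => (0 : ℝ)) x = 0 := by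
  have := Xw_smul w 0 (φ := fun _ => (0 : ℝ)) x
  simpa using this

private lemma S1_sum {ι : Type} (s : Finset ι) (c : ι → ℝ) (f : ι → E n → ℝ) (hf : ∀ i, S1 (f i)) :
    S1 (fun z => ∑ i ∈ s, c i * f i z) := by
  classical
  induction s using Finset.induction_on with
  | empty => simpa using (S1_zero (n := n))
  | insert i s hi ih =>
    have := S1_add (S1_smul (c i) (hf i)) ih
    simpa [Finset.sum_insert hi] using this

private lemma Xw_sum {ι : Type} (w : List (Fin n × Fin n)) (s : Finset ι) (c : ι → ℝ)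
    (f : ι → E n → ℝ) (hf : ∀ i, S1 (f i)) (x : E n) (hx : x ≠ 0) :
    Xw w (fun z => ∑ i ∈ s, c i * f i z) x = ∑ i ∈ s, c i * Xw w (f i) x := by
  classical
  induction s using Finset.induction_on with
  | empty => simpa using Xw_zero w x
  | insert i s hi ih =>
    have h1 := Xw_add w (S1_smul (c i) (hf i)) (S1_sum s c f hf) x hx
    simp only [Finset.sum_insert hi]
    rw [h1, ih, Xw_smul]

private lemma Xw_append (w : List (Fin n × Fin n)) (q : Fin n × Fin n) (φ : E n → ℝ) :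
    Xw (w ++ [q]) φ =
      Xw w (Xd (EuclideanSpace.single q.1 (1 : ℝ)) (EuclideanSpace.single q.2 (1 : ℝ)) φ) := by
  induction w with
  | nil => rfl
  | cons r w ih =>
    show Xd _ _ (Xw (w ++ [q]) φ) = Xd _ _ (Xw w _)
    rw [ih]

private lemma expand (a : E n) : a = ∑ k, a k • EuclideanSpace.single k (1 : ℝ) := by
  ext i
  simp [Finset.sum_apply, EuclideanSpace.single_apply, Pi.single_apply]

private lemma Xd_expand (a b : E n) (φ : E n → ℝ) (x : E n) :
    Xd a b φ x = ∑ q : Fin n × Fin n, (a q.1 * b q.2) *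
      Xd (EuclideanSpace.single q.1 (1 : ℝ)) (EuclideanSpace.single q.2 (1 : ℝ)) φ x := by
  have h : vf a b x = ∑ q : Fin n × Fin n, (a q.1 * b q.2) •
      vf (EuclideanSpace.single q.1 (1 : ℝ)) (EuclideanSpace.single q.2 (1 : ℝ)) x := by
    have e1 : ∀ c d : E n, (inner ℝ c x : ℝ) • d = ∑ q : Fin n × Fin n, (c q.1 * d q.2) •
        ((inner ℝ (EuclideanSpace.single q.1 (1 : ℝ)) x : ℝ) •
          (EuclideanSpace.single q.2 (1 : ℝ) : E n)) := by
      intro c d
      conv_lhs => rw [expand c, expand d]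
      rw [sum_inner, Finset.sum_smul, Fintype.sum_prod_type]
      refine Finset.sum_congr rfl fun k _ => ?_
      rw [Finset.smul_sum]
      refine Finset.sum_congr rfl fun l _ => ?_
      rw [inner_smul_left, smul_smul, smul_smul]
      congr 1
      simp only [conj_trivial]
      ring
    simp only [vf, smul_sub, Finset.sum_sub_distrib]
    rw [← e1 a b, e1 b a]
    congr 1
    rw [← Equiv.sum_comp (Equiv.prodComm (Fin n) (Fin n))]
    refine Finset.sum_congr rfl fun q _ => ?_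
    simp only [Equiv.prodComm_apply, Prod.fst_swap, Prod.snd_swap]
    rw [mul_comm]
  rw [Xd_def, h, map_sum]
  refine Finset.sum_congr rfl fun q _ => ?_
  rw [map_smul, smul_eq_mul, Xd_def]

private lemma abs_coord_le (a : E n) (ha : ‖a‖ = 1) (k : Fin n) : |a k| ≤ 1 := by
  have := PiLp.norm_apply_le a k
  rw [ha] at this
  simpa using this

private lemma ne_of_norm {x : E n} (hx : ‖x‖ = 1) : x ≠ 0 := by
  intro h
  rw [h, norm_zero] at hx
  exact zero_ne_one hx

private lemma part5 (N : ℕ) (a b : E n) (φ : E n → ℝ) (B : ℝ) (ha : ‖a‖ = 1) (hb : ‖b‖ = 1)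
    (hφ : S1 φ) (hB : Bd (N + 1) φ B) : Bd N (Xd a b φ) ((n : ℝ) ^ 2 * B) := by
  intro w hw x hx
  have e : Xd a b φ = fun z => ∑ q : Fin n × Fin n, (a q.1 * b q.2) *
      Xd (EuclideanSpace.single q.1 (1 : ℝ)) (EuclideanSpace.single q.2 (1 : ℝ)) φ z := by
    funext z
    exact Xd_expand a b φ z
  rw [e, Xw_sum w Finset.univ (fun q : Fin n × Fin n => a q.1 * b q.2)
    (fun q => Xd (EuclideanSpace.single q.1 (1 : ℝ)) (EuclideanSpace.single q.2 (1 : ℝ)) φ)
    (fun q => S1_Xd _ _ _ hφ) x (ne_of_norm hx)]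
  have hq : ∀ q : Fin n × Fin n, |(a q.1 * b q.2) *
      Xw w (Xd (EuclideanSpace.single q.1 (1 : ℝ)) (EuclideanSpace.single q.2 (1 : ℝ)) φ) x| ≤ B := by
    intro q
    have h1 := hB (w ++ [q]) (by simpa using hw) x hx
    rw [Xw_append] at h1
    have h2 := abs_coord_le a ha q.1
    have h3 := abs_coord_le b hb q.2
    have h4 : |a q.1 * b q.2| ≤ 1 := by
      rw [abs_mul]
      exact mul_le_one₀ h2 (abs_nonneg _) h3
    rw [abs_mul]
    calc _ ≤ 1 * B := mul_le_mul h4 h1 (abs_nonneg _) zero_le_one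
      _ = B := one_mul B
  calc _ ≤ ∑ q : Fin n × Fin n, |(a q.1 * b q.2) *
      Xw w (Xd (EuclideanSpace.single q.1 (1 : ℝ)) (EuclideanSpace.single q.2 (1 : ℝ)) φ) x| :=
        Finset.abs_sum_le_sum_abs _ _
    _ ≤ ∑ _q : Fin n × Fin n, B := Finset.sum_le_sum fun q _ => hq q
    _ = (n : ℝ) ^ 2 * B := by
      rw [Finset.sum_const, Finset.card_univ, Fintype.card_prod, Fintype.card_fin, nsmul_eq_mul]
      push_cast
      ring

private lemma Xd_rot (θ : E n ≃ₗᵢ[ℝ] E n) (a b : E n) (φ : E n → ℝ) :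
    Xd a b (fun z => φ (θ z)) = fun z => Xd (θ a) (θ b) φ (θ z) := by
  funext x
  have h1 : fderiv ℝ (fun z => φ (θ z)) x =
      (fderiv ℝ φ (θ x)).comp (θ.toContinuousLinearEquiv : E n →L[ℝ] E n) :=
    θ.toContinuousLinearEquiv.comp_right_fderiv (f := φ) (x := x)
  rw [Xd_def, Xd_def, h1]
  show fderiv ℝ φ (θ x) (θ (vf a b x)) = _
  congr 1
  simp only [vf, map_sub, map_smul, LinearIsometryEquiv.inner_map_map]

private lemma S1_rot (θ : E n ≃ₗᵢ[ℝ] E n) {φ : E n → ℝ} (h : S1 φ) : S1 (fun z => φ (θ z)) := by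
  refine ⟨fun c hc x => by rw [map_smul, h.hom c hc], ?_⟩
  have h1 : ContDiffOn ℝ ∞ (fun z : E n => θ z) {0}ᶜ := θ.contDiff.contDiffOn
  refine h.smooth.comp h1 ?_
  intro x hx
  simpa using hx

private lemma part4 (N : ℕ) : ∃ C : ℝ, 0 ≤ C ∧ ∀ (θ : E n ≃ₗᵢ[ℝ] E n) (φ : E n → ℝ) (B : ℝ), S1 φ →
    Bd N φ B → Bd N (fun z => φ (θ z)) (C * B) := by
  induction N with
  | zero =>
    refine ⟨1, zero_le_one, fun θ φ B _ hB w hw x hx => ?_⟩
    have hw0 : w = [] := List.length_eq_zero_iff.1 (Nat.le_zero.1 hw)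
    subst hw0
    rw [one_mul]
    exact hB [] le_rfl (θ x) (by rw [θ.norm_map, hx])
  | succ N ih =>
    obtain ⟨C, hC, h⟩ := ih
    refine ⟨1 + C * (n : ℝ) ^ 2, by positivity, fun θ φ B hφ hB w hw x hx => ?_⟩
    have hθ : ‖θ x‖ = 1 := by rw [θ.norm_map, hx]
    have h0 : |φ (θ x)| ≤ B := hB [] (Nat.zero_le _) (θ x) hθ
    have hB0 : 0 ≤ B := (abs_nonneg _).trans h0
    have hcn : 0 ≤ C * (n : ℝ) ^ 2 * B := by positivity
    rcases List.eq_nil_or_concat w with rfl | ⟨w', q, hwq⟩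
    · show |φ (θ x)| ≤ _
      linarith
    · have e1 : ‖θ (EuclideanSpace.single q.1 (1 : ℝ))‖ = 1 := by
        rw [θ.norm_map]; simp
      have e2 : ‖θ (EuclideanSpace.single q.2 (1 : ℝ))‖ = 1 := by
        rw [θ.norm_map]; simp
      have h1 := part5 N _ _ φ B e1 e2 hφ hB
      have h2 := h θ _ _ (S1_Xd _ _ _ hφ) h1 w'
        (by
          rw [hwq] at hw
          simpa using hw) x hx
      rw [hwq, List.concat_eq_append, Xw_append, Xd_rot]
      refine h2.trans ?_
      linarith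

theorem hXA : StXA := by
  intro n
  refine ⟨S1_Xd, S1_Xw, fun w φ ψ c hφ hψ x hx => ⟨Xw_add w hφ hψ x hx, Xw_smul w c x⟩,
    part4, fun N => ⟨(n : ℝ) ^ 2, by positivity, fun a b φ B ha hb hφ hB =>
      part5 N a b φ B ha hb hφ hB⟩⟩

end Pool.Agent.Helper87.PM
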